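import Mathlib

/-!
# Newton strata: definitions
-/

set_option autoImplicit false

namespace Pool.Agent.Q124.Lay

open Polynomial

/-- The slopes `s i` (`i < g`) and `1 - s i` are those of a symmetric Newton polygon of an abelian
variety of dimension `g`: they are increasing, between `0` and `1 / 2`, and the break points of the
polygon are integral. -/
structure IsPolygon {g : ℕ} (s : Fin g → ℚ) : Prop where
  mono : Monotone s
  nonneg : ∀ i, 0 ≤ s i
  le_half : ∀ i, s i ≤ 1 / 2
  integral : ∀ x : ℚ, x < 1 / 2 →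
    ∃ n : ℤ, ((Finset.univ.filter fun i => s i = x).card : ℚ) * x = n

/-- `P` is the characteristic polynomial of the Frobenius endomorphism of an abelian variety over
the field with `p ^ a` elements (theorem of Honda and Tate): `P` is monic with integral
coefficients, all complex roots have absolute value `p ^ (a / 2)`, and for every irreducible factor
`g` of `P` over `ℚ`, the multiplicity `m` of `g` in `P` is a multiple of the denominators of the
local invariants `1 / 2` at real places (if `g` has a real root) and `v (h 0) / a`, where `h` runs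
through the irreducible factors of `g` over `ℚ_p`. -/
structure IsFrobPoly (p : ℕ) [Fact p.Prime] (a : ℕ) (P : ℤ[X]) : Prop where
  monic : P.Monic
  weil : ∀ z : ℂ, (P.map (Int.castRingHom ℂ)).IsRoot z → ‖z‖ ^ 2 = (p : ℝ) ^ a
  real : ∀ g : ℚ[X], g.Monic → Irreducible g → (∃ r : ℝ, (g.map (algebraMap ℚ ℝ)).IsRoot r) →
    2 ∣ multiplicity g (P.map (Int.castRingHom ℚ))
  places : ∀ g : ℚ[X], g.Monic → Irreducible g → ∀ h : ℚ_[p][X], h.Monic → Irreducible h →
    h ∣ g.map (algebraMap ℚ ℚ_[p]) →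
    (a : ℤ) ∣ (multiplicity g (P.map (Int.castRingHom ℚ)) : ℤ) * (h.coeff 0).valuation

/-- The polynomial `P` of degree `2 * g` has the slopes `s i` and `1 - s i`: the absolute values of
its roots in an algebraic closure of `ℚ_p` are `q ^ (-s i)` and `q ^ (-(1 - s i))`, where
`q = p ^ a`. -/
def WithSlopes (p : ℕ) [Fact p.Prime] (a : ℕ) {g : ℕ} (s : Fin g → ℚ) (P : ℤ[X]) : Prop :=
  (P.map (Int.castRingHom (AlgebraicClosure ℚ_[p]))).roots.map
      (fun x => spectralNorm ℚ_[p] (AlgebraicClosure ℚ_[p]) x) =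
    Finset.univ.val.map (fun i => (p : ℝ) ^ (-((a * s i : ℚ) : ℝ))) +
      Finset.univ.val.map (fun i => (p : ℝ) ^ (-((a * (1 - s i) : ℚ) : ℝ)))

/-- Tuples of Frobenius polynomials of abelian varieties of dimension `g i` over the field with
`p ^ a` elements whose Newton polygons have the slopes `s i j` and `1 - s i j`. -/
def NewtonStratum {κ : Type} (g : κ → ℕ) (s : ∀ i, Fin (g i) → ℚ) (p : ℕ) [Fact p.Prime] (a : ℕ) :
    Set (κ → ℤ[X]) :=
  {P | ∀ i, IsFrobPoly p a (P i) ∧ (P i).natDegree = 2 * g i ∧ WithSlopes p a (s i) (P i)}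

/-- The sum of the deviations `1 - 2 s j` of the slopes. -/
noncomputable def devSum {g : ℕ} (s : Fin g → ℚ) : ℝ := ∑ j, (1 - 2 * (s j : ℝ))

/-- The sum of the squares `(1 - 2 s j) ^ 2`, for the slopes `s j`. -/
noncomputable def sqSum {g : ℕ} (s : Fin g → ℚ) : ℝ := ∑ j, (1 - 2 * (s j : ℝ)) ^ 2

/-- The sum of the squares of `2 λ - w`, where `λ` runs over the slopes of `χ`: the numbers
`- log ‖y‖ / log Q`, `y` the roots of `χ` in an algebraic closure of `ℚ_p`. -/
noncomputable def newtonMoment (p : ℕ) [Fact p.Prime] (Q : ℝ) (w : ℕ) (χ : ℤ[X]) : ℝ :=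
  ((χ.map (Int.castRingHom (PadicAlgCl p))).roots.map
    (fun y => (2 * (- Real.logb Q ‖y‖) - w) ^ 2)).sum

/-- The number `ρ` of weight `w` has moment at most `M`: the mean of the numbers `(2 λ - w) ^ 2`, where
`λ` runs over the slopes (relative to `Q`) of the conjugates of `ρ`, is at most `M`. -/
def HasMoment {K : Type} [Field K] (Q w : ℕ) (M : ℝ) (ρ : K) : Prop :=
  ∃ χ : ℤ[X], χ.Monic ∧ Irreducible (χ.map (Int.castRingHom ℚ)) ∧ aeval ρ χ = 0 ∧
    ∀ (p : ℕ) [Fact p.Prime], p ∣ Q → newtonMoment p Q w χ ≤ M * χ.natDegree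

/-- `ρ` is a Weil number of weight `w` relative to `Q`: an algebraic integer all of whose conjugates
in the complex numbers have absolute value `Q ^ (w / 2)`. -/
def IsWeilNumber {K : Type} [Field K] (Q w : ℕ) (ρ : K) : Prop :=
  ∃ χ : ℤ[X], χ.Monic ∧ aeval ρ χ = 0 ∧ ∀ z : ℂ, aeval z χ = 0 → ‖z‖ ^ 2 = (Q : ℝ) ^ w

/-- The number `ρ` of weight `w` has level at most `e`: some power `ρ ^ k` is divisible by `Q ^ b`,
`b ≥ k (w - e) / 2`, in the ring of algebraic integers. In other words, the slopes of `ρ` lie between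
`(w - e) / 2` and `(w + e) / 2`. -/
def HasLevel {K : Type} [Field K] (Q w : ℕ) (e : ℝ) (ρ : K) : Prop :=
  ∃ (k b : ℕ) (ρ' : K), 0 < k ∧ IsIntegral ℤ ρ' ∧ ρ ^ k = (Q : K) ^ b * ρ' ∧
    ((w : ℝ) - e) * k ≤ 2 * b

end Pool.Agent.Q124.Lay
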