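import Mathlib
import Pool.Agent.W492.BB.Defs
import Pool.Agent.Q124.Lay.Strata

/-!
# Products of abelian varieties and arbitrary varieties: the situation
-/

set_option autoImplicit false

open CategoryTheory AlgebraicGeometry

namespace Pool.Agent.Q124.Lay

open Polynomial Pool.Agent.H914 Pool.Agent.H914.VarClass Pool.Agent.H914.VarClass.Obj
  Pool.Agent.W492.BB

variable {k : Type} [Field k] {𝒱 : VarClass k}

section chow

variable (C : TheoryData.{0, 0, 0} 𝒱 ℚ) {A X Y Z : 𝒱.Obj}

/-- The composition of correspondences. -/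
noncomputable def compose (Γ : C.A (X.prod Y)) (Δ : C.A (Y.prod Z)) : C.A (X.prod Z) :=
  C.down (prodMap (fst X Y) (𝟙 Z))
    (C.mul (C.up (prodMap (snd X Y) (𝟙 Z)) Δ) (C.up (fst (X.prod Y) Z) Γ))

/-- The class of the diagonal: the identity correspondence. -/
noncomputable def diagonal (X : 𝒱.Obj) : C.A (X.prod X) := C.down (Obj.lift (𝟙 X) (𝟙 X)) 1

/-- The iterates of a self-correspondence. -/
noncomputable def iterate (Γ : C.A (X.prod X)) : ℕ → C.A (X.prod X)
  | 0 => diagonal C X
  | n + 1 => compose C (iterate Γ n) Γ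

/-- The endomorphism `π` acts on the Chow groups like the Frobenius endomorphism relative to
the field with `Q` elements: `π^*` is multiplication by `Q ^ i` on `CH^i(X)`, and `π` has degree
`Q ^ dim X`. -/
structure IsFrobenius (π : X ⟶ X) (Q : ℕ) : Prop where
  chow : ∀ (i : ℕ) (z : C.A X), C.Deg i z → C.up π z = (Q : ℚ) ^ i • z
  degree : C.down π 1 = (Q : ℚ) ^ X.dim • (1 : C.A X)

/-- The zero-cycle `x` on `X` has degree `c`: for all `Y` the push-forward of `x × Y` to `Y` is `c` times
the fundamental class of `Y`. -/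
def HasDegree (x : C.A X) (c : ℚ) : Prop :=
  ∀ Y : 𝒱.Obj, C.down (snd X Y) (C.up (fst X Y) x) = c • (1 : C.A Y) ∧
    C.down (fst Y X) (C.up (snd Y X) x) = c • (1 : C.A Y)

/-- Theories on which correspondences act: vector spaces `M(X)` over `ℚ` with subspaces
`M^i(X)`, and an action of the classes in `CH(X × Y)` as maps `M(X) → M(Y)`. -/
structure Theory where
  /-- the space `M(X)` -/
  M : 𝒱.Obj → Type
  [group : ∀ X, AddCommGroup (M X)]
  [module : ∀ X, Module ℚ (M X)]
  /-- the space `M^i(X)` -/
  gr : ∀ X, ℤ → Submodule ℚ (M X)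
  /-- the action of correspondences -/
  act : ∀ {X Y : 𝒱.Obj}, C.A (X.prod Y) → M X → M Y

attribute [instance] Theory.group Theory.module

variable {C}

/-- The action of correspondences is biadditive, shifts the degrees as usual, and is compatible with
composition and identities. Examples: the Chow groups and the higher Chow groups `CH^i(X, m)`, for
fixed `m`, with rational coefficients. -/
structure IsMotivic (T : Theory C) : Prop where
  add_left : ∀ {X Y : 𝒱.Obj} (Γ Δ : C.A (X.prod Y)) (m : T.M X),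
    T.act (Γ + Δ) m = T.act Γ m + T.act Δ m
  add_right : ∀ {X Y : 𝒱.Obj} (Γ : C.A (X.prod Y)) (m n : T.M X),
    T.act Γ (m + n) = T.act Γ m + T.act Γ n
  mem : ∀ {X Y : 𝒱.Obj} {i j : ℤ} {Γ : C.A (X.prod Y)} {m : T.M X}, C.Deg (X.dim + j) Γ →
    m ∈ T.gr X i → T.act Γ m ∈ T.gr Y (i + j)
  comp : ∀ {X Y Z : 𝒱.Obj} (Γ : C.A (X.prod Y)) (Δ : C.A (Y.prod Z)) (m : T.M X),
    T.act (compose C Γ Δ) m = T.act Δ (T.act Γ m)
  id : ∀ {X : 𝒱.Obj} (m : T.M X), T.act (diagonal C X) m = m

/-- The endomorphism `π` acts on `M^i(X)` as multiplication by `Q ^ i`; here `π^*` is the action of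
the transposed graph. -/
def ActsAsPower (T : Theory C) {X : 𝒱.Obj} (π : X ⟶ X) (Q : ℕ) : Prop :=
  ∀ (i : ℤ), ∀ m ∈ T.gr X i, T.act (C.down (Obj.lift π (𝟙 X)) 1) m = (Q : ℚ) ^ i • m

/-- The group `T ^ c (X)` is zero. -/
def VanishesIn (T : Theory C) (X : 𝒱.Obj) (c : ℤ) : Prop := ∀ m ∈ T.gr X c, m = 0

end chow

variable {C : TheoryData.{0, 0, 0} 𝒱 ℚ} {K : Type} [Field K] (H : WeilTheoryData.{0, 0, 0} C K)
  {A B X Y Z : 𝒱.Obj}

/-- Properties of the Chow groups and the cohomology of smooth projective geometrically irreducible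
varieties which are not recorded in `IsChow` and `IsWeil`: the cohomology is finite-dimensional, not
zero, vanishes in degrees above `2 dim X`, and `H^0(X) = K`; the groups `CH^i(X)` vanish for
`i > dim X`, and `CH^0(X) = ℚ`; isomorphisms preserve the fundamental classes; zero-cycles have
degrees; some divisor (a hyperplane section) has a nonzero self-intersection number; the
orientation vanishes outside of the degree `2 dim X`. -/
structure IsStandard : Prop where
  finite : ∀ X, Module.Finite K (H.A X)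
  nontrivial : ∀ X, Nontrivial (H.A X)
  coh_top : ∀ (X : 𝒱.Obj) (i : ℤ) (a : H.A X), 2 * (X.dim : ℤ) < i → H.Deg i a → a = 0
  coh_zero : ∀ (X : 𝒱.Obj) (a : H.A X), H.Deg 0 a → ∃ c : K, a = c • 1
  chow_top : ∀ (X : 𝒱.Obj) (i : ℤ) (z : C.A X), (X.dim : ℤ) < i → C.Deg i z → z = 0
  chow_zero : ∀ (X : 𝒱.Obj) (z : C.A X), C.Deg 0 z → ∃ c : ℚ, z = c • 1
  iso : ∀ {X Y : 𝒱.Obj} (f : X ⟶ Y) (g : Y ⟶ X), f ≫ g = 𝟙 X → g ≫ f = 𝟙 Y → C.down f 1 = 1
  degree : ∀ (X : 𝒱.Obj) (x : C.A X), C.Deg X.dim x → ∃ c, HasDegree C x c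
  polarized : ∀ X : 𝒱.Obj, ∃ h : C.A X, C.Deg 1 h ∧ ∃ c ≠ 0, HasDegree C (h ^ X.dim) c
  trace : ∀ (X : 𝒱.Obj) (i : ℤ) (a : H.A X), H.Deg i a → i ≠ 2 * X.dim → H.tr X a = 0

/-- The abelian variety `A` over the field with `Q = q ^ s` elements, with Frobenius endomorphism
`π`, is isogenous to a product of powers of abelian varieties which come from the field with `q`
elements and have characteristic polynomials of Frobenius `f i` over this field: the cohomology of
`A` is generated by `H^1(A)`, whose elements anticommute, and which is spanned by eigenvectors of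
Frobenius with eigenvalues `z ^ s`, `z` a root of some `f i`; moreover Tate's theorem on
divisors holds: the classes in `H^2(A)` on which `π` acts as multiplication by `Q` are
linear combinations of classes of divisors. -/
structure IsAbelian (π : A ⟶ A) (q s : ℕ) {I : Type} (f : I → ℤ[X]) : Prop where
  frobenius : IsFrobenius C π (q ^ s)
  generated : ∀ S : Subalgebra K (H.A A), (∀ a : H.A A, H.Deg 1 a → a ∈ S) → ∀ a : H.A A, a ∈ S
  anticomm : ∀ a b : H.A A, H.Deg 1 a → H.Deg 1 b → a * b = -(b * a)
  spanned : ∀ c : H.A A, H.Deg 1 c → c ∈ Submodule.span K {c : H.A A |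
    H.Deg 1 c ∧ ∃ i, ∃ z : K, aeval z (f i) = 0 ∧ H.up π c = z ^ s • c}
  tate : ∀ c : H.A A, H.Deg 2 c → H.up π c = ((q ^ s : ℕ) : K) • c →
    c ∈ Submodule.span K {c : H.A A | ∃ D : C.A A, C.Deg 1 D ∧ c = H.cl D}

/-- Every self-correspondence of degree zero of `X` which acts as zero on the cohomology is
nilpotent. This holds if the motive of `X` is finite-dimensional in the sense of Kimura and
O'Sullivan, for instance if `X` is dominated by a product of curves. -/
def Nilpotence (X : 𝒱.Obj) : Prop :=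
  ∀ Γ : C.A (X.prod X), C.Deg X.dim Γ → (∀ a : H.A X, H.act (H.cl Γ) a = 0) →
    ∃ n : ℕ, iterate C Γ n = 0

/-- The number `ρ` is an eigenvalue of `π` on `H ^ w (Z)`. -/
def IsEigenvalue (π : Z ⟶ Z) (w : ℕ) (ρ : K) : Prop :=
  ∃ v : H.A Z, H.Deg w v ∧ v ≠ 0 ∧ H.up π v = ρ • v

/-- The situation of the theorems. The varieties `A`, `B` and `Z` are smooth projective varieties over
the field with `Q = q ^ s` elements, with Frobenius endomorphisms `πA`, `πB`, `πZ`. The abelian varieties
`A`, `B`, `A × A`, `A × B` and `B × A` are isogenous to products of powers of abelian varieties which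
come from the field with `q` elements and have the characteristic polynomials of Frobenius `f i`. For
each list of at most `n` numbers `z ^ s`, `z` a root of some `f i`, the product of the list is an
eigenvalue of Frobenius on `H ^ m (B)`, `m` the length of the list (`occurs`): this is true for
`B = X ^ n` if all the given abelian varieties occur in the abelian variety `X`. The Frobenius
eigenvalues of `Z` are Weil numbers (Deligne). The self-correspondences of degree zero of `A` and of
`Z` which act as zero on the cohomology are nilpotent; for `A` this is a theorem, and for `Z` it is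
known if `Z` is dominated by a product of curves. -/
structure IsTripleFor (πA : A ⟶ A) (πB : B ⟶ B) (πZ : Z ⟶ Z) (n q s : ℕ) {I : Type}
    (f : I → ℤ[X]) : Prop where
  standard : IsStandard H
  pos : 0 < s
  abelian : IsAbelian H πA q s f
  auxiliary : IsAbelian H πB q s f
  square : IsAbelian H (prodMap πA πA) q s f
  mixed : IsAbelian H (prodMap πA πB) q s f
  mixed' : IsAbelian H (prodMap πB πA) q s f
  occurs : ∀ L : List K, L.length ≤ n →
    (∀ x ∈ L, ∃ i, ∃ z : K, aeval z (f i) = 0 ∧ x = z ^ s) → IsEigenvalue H πB L.length L.prod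
  frobenius : IsFrobenius C πZ (q ^ s)
  pure : ∀ (w : ℕ) (ρ : K), IsEigenvalue H πZ w ρ → IsWeilNumber (q ^ s) w ρ
  nilpotence : Nilpotence H A
  nilpotenceZ : Nilpotence H Z

/-- The cohomology of `Z` has level at most `e`: the slopes of the Frobenius endomorphism `π`, relative
to the field with `Q` elements, on `H ^ w (Z)` lie between `(w - e) / 2` and `(w + e) / 2`, for all `w`. By
Poincare duality this is always true for `e = dim Z`. -/
def HasLevelLE (π : Z ⟶ Z) (Q : ℕ) (e : ℝ) : Prop :=
  ∀ (w : ℕ) (ρ : K), IsEigenvalue H π w ρ → HasLevel Q w e ρ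

/-- The slopes of `H ^ w (Z)`, `1 < w < 2 dim Z - 1`, are close to `w / 2`: for each eigenvalue `ρ` of
Frobenius on `H ^ w (Z)`, either the slopes of `ρ` lie between `(w - e) / 2` and `(w + e) / 2` for some
`e < b δ`, or the mean of the numbers `(2 λ - w) ^ 2`, `λ` the slopes of the conjugates of `ρ`, is
smaller than `b δ₂`. Here `b = 2` if `w` is even and `b = 1` if `w` is odd. For curves this is no
condition, and for surfaces it is a condition on `H ^ 2 (Z)` only. -/
def IsNarrow (π : Z ⟶ Z) (Q : ℕ) (δ δ₂ : ℝ) : Prop :=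
  ∀ (w : ℕ) (ρ : K), 1 < w → w + 1 < 2 * Z.dim → IsEigenvalue H π w ρ →
    (∃ e : ℝ, e < (if w % 2 = 0 then 2 else 1) * δ ∧ HasLevel Q w e ρ) ∨
      (∃ M : ℝ, M < (if w % 2 = 0 then 2 else 1) * δ₂ ∧ HasMoment Q w M ρ)

/-- There are correspondences `Λ` and `Δ` on `Z` whose composition is the identity on
`H ^ (2 d - 1) (Z)`, where `Λ` is a divisor on `Z × Z` and `Δ` has codimension `2 d - 1`, `d = dim Z`. This
is known for all varieties: `Δ` is the `(d - 1)`-st power of a hyperplane section, on the
diagonal, and `Λ` is given by the isogeny between the Picard and the Albanese variety. -/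
def HasInverse (Z : 𝒱.Obj) : Prop :=
  ∃ Λ Δ : C.A (Z.prod Z), C.Deg 1 Λ ∧ C.Deg (2 * Z.dim - 1) Δ ∧
    ∀ v : H.A Z, H.Deg (2 * Z.dim - 1) v → H.act (H.cl (compose C Λ Δ)) v = v

end Pool.Agent.Q124.Lay
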