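import Mathlib
import Pool.Agent.Q124.Lay.Geo
import Pool.Agent.Q219.UZ.RThm

/-!
# Products of abelian varieties and arbitrary varieties: the general theorems
-/

set_option autoImplicit false
set_option linter.unusedSectionVars false

open CategoryTheory AlgebraicGeometry

namespace Pool.Agent.Q124.Lay

open Module Polynomial Pool.Agent.H914 Pool.Agent.H914.VarClass Pool.Agent.H914.VarClass.Obj
  Pool.Agent.W492.BB

open Pool.Agent.Q219.UZ (BoundedAt MomentAt)

open Pool.Agent.TH133 (IsChowProj IsWeilProj)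

variable {k : Type} [Field k] {𝒱 : VarClass k} {C : TheoryData.{0, 0, 0} 𝒱 ℚ} {K : Type} [Field K]
  {H : WeilTheoryData.{0, 0, 0} C K} {A B X Y Z : 𝒱.Obj}

/-- The action as a bilinear map. -/
noncomputable def actQ {T : Theory C} (h : IsMotivic T) {X Y : 𝒱.Obj} :
    C.A (X.prod Y) →ₗ[ℚ] T.M X →ₗ[ℚ] T.M Y :=
  (AddMonoidHom.mk' (fun Γ => (AddMonoidHom.mk' (T.act Γ) (h.add_right Γ)).toRatLinearMap)
    fun Γ Δ => by
      ext m
      exact h.add_left Γ Δ m).toRatLinearMap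

/-- The old form of the data. -/
noncomputable def toCorr {T : Theory C} (h : IsMotivic T) : W484.CH.CorrData C where
  M := T.M
  gr := T.gr
  act := actQ h

theorem toCorr_isCorr {T : Theory C} (h : IsMotivic T) : W484.CH.IsCorrTheory (toCorr h) where
  app_mem := fun h1 h2 => h.mem h1 h2
  app_comp := fun Γ Δ m => h.comp Γ Δ m
  app_id := fun m => h.id m

theorem toCorr_power {T : Theory C} (h : IsMotivic T) {π : X ⟶ X} {Q : ℕ}
    (h' : ActsAsPower T π Q) : W484.CH.ActsAsPower (toCorr h) π Q := fun i m hm => h' i m hm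

theorem vanishesIn_iff {T : Theory C} (h : IsMotivic T) {c : ℤ} :
    VanishesIn T X c ↔ (toCorr h).gr X c = ⊥ :=
  ⟨fun h => (Submodule.eq_bot_iff _).2 h, fun h => (Submodule.eq_bot_iff _).1 h⟩

theorem isStandard (h : IsStandard H) : W484.CK.IsStandard H where
  finite := h.finite
  nontrivial := h.nontrivial
  coh_top := h.coh_top
  coh_zero := h.coh_zero
  chow_top := h.chow_top
  chow_zero := h.chow_zero

theorem isProjective (h : IsStandard H) : Q219.UZ.Lite.IsProjective H where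
  iso := h.iso
  degree := h.degree
  polarized := fun X => by
    obtain ⟨x, hx, c, hc, hc'⟩ := h.polarized X
    exact ⟨x, hx, c, hc, (hc' X).1⟩
  trace := h.trace

theorem isFrobenius {π : X ⟶ X} {Q : ℕ} (h : IsFrobenius C π Q) : W484.CK.IsFrobenius C π Q where
  chow := h.chow
  degree := h.degree

theorem isFrobeniusH {π : X ⟶ X} {Q : ℕ} (h : IsFrobenius C π Q) : W484.CH.IsFrobenius C π Q where
  chow := h.chow
  degree := h.degree

theorem isAbelian {π : A ⟶ A} {q s : ℕ} {I : Type} {f : I → ℤ[X]} (h : IsAbelian H π q s f) :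
    W484.CK.IsAbelian H π q s f where
  frobenius := isFrobenius h.frobenius
  generated := h.generated
  anticomm := h.anticomm
  spanned := h.spanned
  tate := h.tate

theorem iterate_eq (Γ : C.A (X.prod X)) (n : ℕ) : iterate C Γ n = W484.CK.iterate C Γ n := by
  induction n with
  | zero => rfl
  | succ n ih =>
    rw [iterate, W484.CK.iterate, ih]
    rfl

theorem nilpotence (h : Nilpotence H X) : W484.CK.Nilpotence H X := by
  intro Γ h1 h2
  obtain ⟨n, hn⟩ := h Γ h1 h2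
  exact ⟨n, by rw [← iterate_eq, hn]⟩

theorem isTripleFor {πA : A ⟶ A} {πB : B ⟶ B} {πZ : Z ⟶ Z} {n q s : ℕ} {I : Type}
    {f : I → ℤ[X]} (h : IsTripleFor H πA πB πZ n q s f) :
    Q219.UZ.Lite.IsTripleFor H πA πB πZ n q s f where
  standard := isStandard h.standard
  projective := isProjective h.standard
  pos := h.pos
  abelian := isAbelian h.abelian
  auxiliary := isAbelian h.auxiliary
  square := isAbelian h.square
  mixed := isAbelian h.mixed
  mixed' := isAbelian h.mixed'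
  occurs := h.occurs
  frobenius := isFrobenius h.frobenius
  pure := h.pure
  nilpotence := nilpotence h.nilpotence
  nilpotenceZ := nilpotence h.nilpotenceZ

theorem hasLevelLE {π : Z ⟶ Z} {Q : ℕ} {e : ℝ} (h : HasLevelLE H π Q e) :
    Q219.UZ.Lite.HasLevelLE H π Q e := h

theorem isNarrow {π : Z ⟶ Z} {Q : ℕ} {δ δ₂ : ℝ} (h : IsNarrow H π Q δ δ₂) :
    Q219.UZ.Lite.IsNarrow H π Q δ δ₂ := by
  intro w ρ h1 h2 h3
  rcases h w ρ h1 h2 h3 with ⟨e, he, he'⟩ | ⟨M, hM, χ, h4, h5, h6, h7⟩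
  · exact Or.inl ⟨e, he, he'⟩
  · exact Or.inr ⟨M, hM, χ, h4, h5, h6, fun p _ hp => h7 p hp⟩

theorem hasInverse (h : HasInverse H Z) : Q219.UZ.Lite.HasInverse H Z := h

section

variable [CharZero K] [IsAlgClosed K] [hC : IsChow C] [hH : IsWeil H] {I : Type} {f : I → ℤ[X]}
  {q s n : ℕ} {δ δ₂ e : ℝ} {πA : A ⟶ A} {πB : B ⟶ B} {πZ : Z ⟶ Z}

/-- The general theorem. -/
theorem vanish (hB : ∀ s, 0 < s → BoundedAt f q s δ) (hδ0 : 0 < δ) (hδ1 : δ ≤ 1) (hq : 1 < q)
    (he : e < (n + 1) * δ) (h : IsTripleFor H πA πB πZ n q s f)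
    (hlev : HasLevelLE H πZ (q ^ s) e) {T : W484.CH.CorrData C} (hT : W484.CH.IsCorrTheory T)
    (hπ : W484.CH.ActsAsPower T (prodMap πA πZ) (q ^ s)) (c : ℤ)
    (h0 : ∀ c' : ℕ, (c' : ℤ) ≤ c → 2 * c' + ⌊e⌋₊ ≤ 2 * Z.dim + n → T.gr (B.prod Z) c' = ⊥) :
    T.gr (A.prod Z) c = ⊥ :=
  Q219.UZ.Lite.vanish_all hB hδ0 hδ1 hq he (isTripleFor h) (hasLevelLE hlev) hT hπ c h0

/-- The theorem for narrow cohomology. -/
theorem vanish_narrow (hB : ∀ s, 0 < s → BoundedAt f q s δ)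
    (hM : ∀ s, 0 < s → MomentAt f q s δ₂) (hδ0 : 0 < δ) (hδ₂ : 0 < δ₂) (hδ3 : 1 < 3 * δ)
    (hq : 1 < q) (h : IsTripleFor H πA πB πZ 1 q s f) (hN : IsNarrow H πZ (q ^ s) δ δ₂)
    (hinv : HasInverse H Z) {T : W484.CH.CorrData C} (hT : W484.CH.IsCorrTheory T)
    (hπ : W484.CH.ActsAsPower T (prodMap πA πZ) (q ^ s)) (c : ℤ)
    (h0 : ∀ c' : ℕ, (c' : ℤ) ≤ c → c' ≤ Z.dim → T.gr Z c' = ⊥)
    (h1 : T.gr (B.prod Z) 1 = ⊥) : T.gr (A.prod Z) c = ⊥ :=
  Q219.UZ.Lite.vanish_all_narrow hB hM hδ0 hδ₂ hδ3 hq (isTripleFor h) (isNarrow hN)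
    (hasInverse hinv) hT hπ c h0 h1

theorem isChowProj (h : IsStandard H) : IsChowProj C :=
  Q219.UZ.Lite.isChowProj (isProjective h) (isStandard h)

theorem isWeilProj (h : IsStandard H) : IsWeilProj H :=
  Q219.UZ.Lite.isWeilProj (isProjective h) (isStandard h)

end

end Pool.Agent.Q124.Lay
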