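import Mathlib
import Pool.Agent.Q124.Lay.Strata
import Pool.Agent.Q219.UZ.MomentField

/-!
# Newton strata: the theorem
-/

set_option autoImplicit false

namespace Pool.Agent.Q124.Lay

open Polynomial

open Pool.Agent.Q219.UZ (BoundedAt MomentAt count_moment)

theorem stratum_eq {κ : Type} (g : κ → ℕ) (s : ∀ i, Fin (g i) → ℚ) (p : ℕ) [Fact p.Prime] (a : ℕ) :
    NewtonStratum g s p a = Q219.NS.NewtonStratum g s p a := by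
  ext P
  exact ⟨fun h i => ⟨⟨(h i).1.monic, (h i).1.weil, (h i).1.real, (h i).1.places⟩, (h i).2⟩,
    fun h i => ⟨⟨(h i).1.monic, (h i).1.weil, (h i).1.real, (h i).1.places⟩, (h i).2⟩⟩

/-- Properties which hold for all members of a Newton stratum outside of a thin set. -/
theorem count {κ : Type} [Fintype κ] [Nonempty κ] (p : ℕ) [Fact p.Prime]
    (g : κ → ℕ) (hg : ∀ i, 1 ≤ g i) (s : ∀ i, Fin (g i) → ℚ) (hs : ∀ i, IsPolygon (s i))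
    (σ : ℚ) (hσ : ∀ i (h : 0 < g i), s i ⟨0, h⟩ ≤ σ) (hσ2 : σ < 1 / 2)
    (P : ℝ → ℝ → ℕ → (κ → ℤ[X]) → Prop)
    (h : ∀ (δ δ₂ : ℝ) (q : ℕ) (f : κ → ℤ[X]), 1 < q → 0 < δ → δ ≤ 1 → 0 < δ₂ →
      (∀ s, 0 < s → BoundedAt f q s δ) → (∀ s, 0 < s → MomentAt f q s δ₂) → P δ δ₂ q f) :
    (∀ N : ℕ, ∃ a₀ : ℕ, ∀ a, a₀ ≤ a →
      (NewtonStratum g s p a).Finite ∧ N ≤ (NewtonStratum g s p a).ncard) ∧
    ∃ C : ℝ, 0 < C ∧ ∀ a : ℕ, 0 < a →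
      ({F ∈ NewtonStratum g s p a | ¬ ∀ δ δ₂ : ℝ, 0 < δ → δ ≤ 1 → 0 < δ₂ →
          (∀ i, δ * g i ≤ devSum (s i)) → (∀ i, δ₂ * g i ≤ sqSum (s i)) →
          P δ δ₂ (p ^ a) F}.ncard : ℝ) ≤
        C * (a * (p : ℝ) ^ (-((a : ℝ) * (1 - 2 * σ) / 6))) *
          ((NewtonStratum g s p a).ncard : ℝ) := by
  simp only [stratum_eq]
  have hs' : ∀ i, Q219.NS.IsPolygon (s i) := fun i => ⟨(hs i).mono, (hs i).nonneg, (hs i).le_half,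
    (hs i).integral⟩
  obtain ⟨h1, C, hC, h2⟩ := count_moment p g hg s hs' σ hσ hσ2
  refine ⟨h1, C, hC, fun a ha => h2 a ha _ fun f hf hf2 δ δ₂ hδ0 hδ1 hδ₂0 hδ hδ₂ => ?_⟩
  have hp : p.Prime := Fact.out
  exact h δ δ₂ _ f (Nat.one_lt_pow ha.ne' hp.one_lt) hδ0 hδ1 hδ₂0 (hf δ hδ) (hf2 δ₂ hδ₂)

end Pool.Agent.Q124.Lay
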