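import Mathlib
import Pool.Agent.Q124.Lay.Conv
import Pool.Agent.Q124.WE.Main
import Pool.Agent.Q219.UZ.RThmB

/-!
# Three theories at the same time
-/

set_option autoImplicit false
set_option linter.unusedSectionVars false

open CategoryTheory AlgebraicGeometry

namespace Pool.Agent.Q124.Lay

open Module Polynomial Pool.Agent.H914 Pool.Agent.H914.VarClass Pool.Agent.H914.VarClass.Obj
  Pool.Agent.W492.BB Pool.Agent.W550.Corr Pool.Agent.Q56.CP Pool.Agent.Q124.WE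

open Pool.Agent.Q219.UZ (BoundedAt MomentAt)

open Pool.Agent.TH133 (IsChowProj IsWeilProj)

variable {k : Type} [Field k] {𝒱 : VarClass k} {C : TheoryData.{0, 0, 0} 𝒱 ℚ} {K : Type} [Field K]
  [CharZero K] {H : WeilTheoryData.{0, 0, 0} C K} {A B X Y Z : 𝒱.Obj}

theorem frobFamily {Fr : ∀ X : 𝒱.Obj, X ⟶ X} {Q : ℕ}
    (h1 : ∀ {X Y : 𝒱.Obj} (f : X ⟶ Y), Fr X ≫ f = f ≫ Fr Y) (h2 : ∀ X, IsFrobenius C (Fr X) Q) :
    IsFrobFamily C Fr Q where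
  nat := h1
  frob := fun X => isFrobeniusH (h2 X)

/-- The cycle map with extended coefficients is bijective onto the generalized eigenspace, and the
theories `T m` vanish. -/
structure KS (H : WeilTheoryData.{0, 0, 0} C K) (Fr : ∀ X : 𝒱.Obj, X ⟶ X) (Q : ℕ)
    (T : ℕ → Theory C) (Y : 𝒱.Obj) (c : ℤ) : Prop where
  higher : ∀ m, 0 < m → VanishesIn (T m) Y c
  injective : ∀ (r : ℕ) (x : Fin r → C.A Y), (∀ j, C.Deg c (x j)) → LinearIndependent ℚ x →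
    LinearIndependent K fun j => H.cl (x j)
  tate : ∀ (r : ℕ) (w : H.A Y), H.Deg (2 * c) w →
    (fun v => H.up (Fr Y) v - (Q : K) ^ c • v)^[r] w = 0 →
      w ∈ Submodule.span K {a : H.A Y | ∃ x : C.A Y, C.Deg c x ∧ a = H.cl x}

variable [hC : IsChowProj C] [hH : IsWeilProj H] {Fr : ∀ X : 𝒱.Obj, X ⟶ X} {Q : ℕ}
  {T : ℕ → Theory C}

theorem ks_iff (hF : IsFrobFamily C Fr Q) (hT : ∀ m, 0 < m → IsMotivic (T m)) (c : ℤ) :
    KS H Fr Q T Y c ↔ (∀ m (hm : 0 < m), (toCorr (hT m hm)).gr Y c = ⊥) ∧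
      (kerData H).gr Y c = ⊥ ∧ (cohData H Fr Q).gr Y c = ⊥ := by
  rw [kerData_iff, ← tate_iff hF]
  constructor
  · intro h
    exact ⟨fun m hm => (vanishesIn_iff _).1 (h.higher m hm), h.injective, h.tate⟩
  · intro h
    exact ⟨fun m hm => (vanishesIn_iff _).2 (h.1 m hm), h.2.1, h.2.2⟩

end Pool.Agent.Q124.Lay

namespace Pool.Agent.Q124.Lay

open Module Polynomial Pool.Agent.H914 Pool.Agent.H914.VarClass Pool.Agent.H914.VarClass.Obj
  Pool.Agent.W492.BB Pool.Agent.W550.Corr Pool.Agent.Q56.CP Pool.Agent.Q124.WE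

open Pool.Agent.Q219.UZ (BoundedAt MomentAt)

open Pool.Agent.TH133 (IsChowProj IsWeilProj)

variable {k : Type} [Field k] {𝒱 : VarClass k} {C : TheoryData.{0, 0, 0} 𝒱 ℚ} {K : Type} [Field K]
  [CharZero K] [IsAlgClosed K] {H : WeilTheoryData.{0, 0, 0} C K} {A B X Y Z : 𝒱.Obj}
  [hC : IsChow C] [hH : IsWeil H] {Fr : ∀ X : 𝒱.Obj, X ⟶ X} {T : ℕ → Theory C} {I : Type}
  {f : I → ℤ[X]} {q s n : ℕ} {δ δ₂ e : ℝ}

/-- The first theorem. -/
theorem ks_of (hB : ∀ s, 0 < s → BoundedAt f q s δ) (hδ0 : 0 < δ) (hδ1 : δ ≤ 1)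
    (hq : 1 < q) (hF : IsFrobFamily C Fr (q ^ s)) (hT : ∀ m, 0 < m → IsMotivic (T m))
    (hp : ∀ m, 0 < m → ∀ X, ActsAsPower (T m) (Fr X) (q ^ s)) (he : e < (n + 1) * δ)
    (h : IsTripleFor H (Fr A) (Fr B) (Fr Z) n q s f) (hlev : HasLevelLE H (Fr Z) (q ^ s) e)
    (c : ℤ) (h0 : ∀ c' : ℕ, (c' : ℤ) ≤ c → 2 * c' + ⌊e⌋₊ ≤ 2 * Z.dim + n →
      KS H Fr (q ^ s) T (B.prod Z) c') : KS H Fr (q ^ s) T (A.prod Z) c := by
  have h1 := isChowProj h.standard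
  have h2 := isWeilProj h.standard
  have hQ : q ^ s ≠ 0 := pow_ne_zero _ (by omega)
  rw [ks_iff hF hT]
  refine ⟨fun m hm => ?_, ?_, ?_⟩
  · refine vanish hB hδ0 hδ1 hq he h hlev (toCorr_isCorr (hT m hm)) ?_ c
      fun c' h3 h4 => ((ks_iff hF hT _).1 (h0 c' h3 h4)).1 m hm
    rw [fr_prod hF]
    exact toCorr_power _ (hp m hm _)
  · refine vanish hB hδ0 hδ1 hq he h hlev (kerData_isCorr H) ?_ c
      fun c' h3 h4 => ((ks_iff hF hT _).1 (h0 c' h3 h4)).2.1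
    rw [fr_prod hF]
    exact kerData_power H (hF.frob _)
  · refine vanish hB hδ0 hδ1 hq he h hlev (cohData_isCorr hF hQ h.standard.finite) ?_ c
      fun c' h3 h4 => ((ks_iff hF hT _).1 (h0 c' h3 h4)).2.2
    rw [fr_prod hF]
    exact cohData_power

/-- The second theorem. -/
theorem ks_narrow (hB : ∀ s, 0 < s → BoundedAt f q s δ)
    (hM : ∀ s, 0 < s → MomentAt f q s δ₂) (hδ0 : 0 < δ) (hδ₂ : 0 < δ₂) (hδ3 : 1 < 3 * δ)
    (hq : 1 < q) (hF : IsFrobFamily C Fr (q ^ s)) (hT : ∀ m, 0 < m → IsMotivic (T m))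
    (hp : ∀ m, 0 < m → ∀ X, ActsAsPower (T m) (Fr X) (q ^ s))
    (h : IsTripleFor H (Fr A) (Fr B) (Fr Z) 1 q s f) (hN : IsNarrow H (Fr Z) (q ^ s) δ δ₂)
    (hinv : HasInverse H Z) (c : ℤ)
    (h0 : ∀ c' : ℕ, (c' : ℤ) ≤ c → c' ≤ Z.dim → KS H Fr (q ^ s) T Z c')
    (h1 : KS H Fr (q ^ s) T (B.prod Z) 1) : KS H Fr (q ^ s) T (A.prod Z) c := by
  have h2 := isChowProj h.standard
  have h3 := isWeilProj h.standard
  have hQ : q ^ s ≠ 0 := pow_ne_zero _ (by omega)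
  have h4 := (ks_iff hF hT _).1 h1
  rw [ks_iff hF hT]
  refine ⟨fun m hm => ?_, ?_, ?_⟩
  · refine vanish_narrow hB hM hδ0 hδ₂ hδ3 hq h hN hinv (toCorr_isCorr (hT m hm)) ?_ c
      (fun c' h5 h6 => ((ks_iff hF hT _).1 (h0 c' h5 h6)).1 m hm) (h4.1 m hm)
    rw [fr_prod hF]
    exact toCorr_power _ (hp m hm _)
  · refine vanish_narrow hB hM hδ0 hδ₂ hδ3 hq h hN hinv (kerData_isCorr H) ?_ c
      (fun c' h5 h6 => ((ks_iff hF hT _).1 (h0 c' h5 h6)).2.1) h4.2.1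
    rw [fr_prod hF]
    exact kerData_power H (hF.frob _)
  · refine vanish_narrow hB hM hδ0 hδ₂ hδ3 hq h hN hinv
      (cohData_isCorr hF hQ h.standard.finite) ?_ c
      (fun c' h5 h6 => ((ks_iff hF hT _).1 (h0 c' h5 h6)).2.2) h4.2.2
    rw [fr_prod hF]
    exact cohData_power

end Pool.Agent.Q124.Lay
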